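import Pool.Agent.Run7.h479.XX.Ad

/-!
# The quotient `𝓛` of the Ichino–Ikeda conjecture as a limit over the power traces

In the notation of the problem one of `G_n`, `G_{n+1}` is an odd orthogonal group, with symplectic dual group and
adjoint representation `Sym²` of the standard representation, and the other one an even orthogonal group, with
orthogonal dual group and adjoint representation `Λ²` of the standard representation. For the primes `v` of `F`
outside a finite set `S` let `b_{v,i}` and `c_{v,j}` be the eigenvalues of the Satake parameters in the standard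
representations of the symplectic and of the orthogonal dual group, of absolute value `1`, and
`B_k(v) = ∑_i b_{v,i}^k`, `C_k(v) = ∑_j c_{v,j}^k` the power traces. For `γ > π/2` and `T > 0` put

`D(T) = ∑_{v ∉ S} ∑_{k ≥ 1} (1/k) (B_k C_k / q^{1/2} - (B_k² + B_{2k}) / (2q) - (C_k² - C_{2k}) / (2q)) ·
  exp(iγ k log N(v) / T) / Γ(1 + k log N(v) / T)`, `q = N(v)^k`.

The series converges absolutely, although `s = 1/2` is outside the region of convergence of the Euler product of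
`L(s, τ × σ)`. If the partial L-function `L^S(s, τ × σ)` is meromorphic along `[1/2, 1]` and analytic at `1/2`, and
the adjoint L-functions are analytic and not zero at `1`, then

`exp(D(T)) → 𝓛^S = L^S(1/2, τ × σ) / (L^S(1, τ, Ad) L^S(1, σ, Ad))`,

without any hypothesis on zeros, and `𝓛^S ≠ 0` iff `D(T)` converges, iff `Re D(T_k)` is bounded below along one
sequence `T_k → ∞`. Let `G = 2^{-β} Δ 𝓛_S ∏_v 𝓟_v(φ_v, f_v)`, with the quotient `𝓛_S` of the local factors in `S` and at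
the archimedean places: the right side of Q1 without `𝓛^S`, a product of finitely many factors different from `1`.
So the identity of Q1 holds if and only if

`G exp(D(T_k)) → 𝓟(φ, f)` for one sequence `T_k → ∞`:

a statement about the period, finitely many local integrals and the power traces of the Satake parameters.

The law for Euler products with complex coefficients at an arbitrary real point is due to helper453 (library
`Pool.Agent.Run7.h453.CX`, used in `MP_46b841_nt.ChebotarevAtZero`).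
-/

set_option autoImplicit false

open Filter Topology Set NumberField IsDedekindDomain Run7.h479.XX

namespace Pool.Agent.Results.MP_f4c338_nt.QuotientByTraces

variable {F : Type} [Field F] [NumberField F] {M N : ℕ}

/-- `B_k(v)`, the sum of the `k`-th powers. -/
def pow {n : ℕ} (b : HeightOneSpectrum (𝓞 F) → Fin n → ℂ) (k : ℕ) (v : HeightOneSpectrum (𝓞 F)) : ℂ :=
  ∑ i, b v i ^ k

open Classical in
/-- The term of `D(T)` for `v = x.1` and `k = x.2`. -/
noncomputable def term (S : Set (HeightOneSpectrum (𝓞 F))) (b : HeightOneSpectrum (𝓞 F) → Fin M → ℂ)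
    (c : HeightOneSpectrum (𝓞 F) → Fin N → ℂ) (γ T : ℝ) (x : HeightOneSpectrum (𝓞 F) × ℕ+) : ℂ :=
  if x.1 ∈ S then 0 else 1 / ((x.2 : ℕ) : ℂ) *
    (pow b x.2 x.1 * pow c x.2 x.1 / ((nm x.1 ^ (((x.2 : ℕ) : ℝ) / 2) : ℝ) : ℂ) -
      (pow b x.2 x.1 ^ 2 + pow b (2 * x.2) x.1) / (2 * (nm x.1 : ℂ) ^ (x.2 : ℕ)) -
      (pow c x.2 x.1 ^ 2 - pow c (2 * x.2) x.1) / (2 * (nm x.1 : ℂ) ^ (x.2 : ℕ))) *
    weight γ T ((x.2 : ℕ) * Real.log (nm x.1))

/-- `D(T)` -/
noncomputable def D (S : Set (HeightOneSpectrum (𝓞 F))) (b : HeightOneSpectrum (𝓞 F) → Fin M → ℂ)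
    (c : HeightOneSpectrum (𝓞 F) → Fin N → ℂ) (γ T : ℝ) : ℂ := ∑' x, term S b c γ T x

/-- The eigenvalues of `Sym²`: the products `b_i b_j` for `i ≤ j`. -/
def sym (b : HeightOneSpectrum (𝓞 F) → Fin M → ℂ) (v : HeightOneSpectrum (𝓞 F)) (p : Ad.Le M) : ℂ :=
  b v p.1.1 * b v p.1.2

/-- The eigenvalues of `Λ²`: the products `c_i c_j` for `i < j`. -/
def ext (c : HeightOneSpectrum (𝓞 F) → Fin N → ℂ) (v : HeightOneSpectrum (𝓞 F)) (p : Ad.Lt N) : ℂ :=
  c v p.1.1 * c v p.1.2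

section proof

variable {S : Set (HeightOneSpectrum (𝓞 F))} {b : HeightOneSpectrum (𝓞 F) → Fin M → ℂ}
  {c : HeightOneSpectrum (𝓞 F) → Fin N → ℂ}

theorem sum_sym (k : ℕ) (v : HeightOneSpectrum (𝓞 F)) :
    ∑ p, sym b v p ^ k = (pow b k v ^ 2 + pow b (2 * k) v) / 2 := by
  have h := Ad.sum_le fun i => b v i ^ k
  unfold sym pow
  simp_rw [mul_pow]
  rw [h]
  congr 2
  exact Finset.sum_congr rfl fun i _ => by rw [← pow_mul, mul_comm]

theorem sum_ext (k : ℕ) (v : HeightOneSpectrum (𝓞 F)) :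
    ∑ p, ext c v p ^ k = (pow c k v ^ 2 - pow c (2 * k) v) / 2 := by
  have h := Ad.sum_lt fun i => c v i ^ k
  unfold ext pow
  simp_rw [mul_pow]
  rw [h]
  congr 2
  exact Finset.sum_congr rfl fun i _ => by rw [← pow_mul, mul_comm]

theorem term_eq (γ T : ℝ) (x : HeightOneSpectrum (𝓞 F) × ℕ+) :
    term S b c γ T x = Tensor.term S b c γ T x - Centre.term (Ad.par S (sym b)) 1 γ T x -
      Centre.term (Ad.par S (ext c)) 1 γ T x := by
  unfold term Tensor.term Centre.term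
  by_cases h : x.1 ∈ S
  · simp only [h, if_true]
    rw [Ad.par_sum_zero _ h x.2.ne_zero, Ad.par_sum_zero _ h x.2.ne_zero]
    simp
  · simp only [h, if_false]
    rw [Ad.par_sum _ h, Ad.par_sum _ h, sum_sym, sum_ext, mul_one, Real.rpow_natCast]
    have h1 : (nm x.1 : ℂ) ≠ 0 := by
      have := nm_two x.1
      exact_mod_cast (by linarith : nm x.1 ≠ 0)
    have h2 : ((nm x.1 ^ (((x.2 : ℕ) : ℝ) / 2) : ℝ) : ℂ) ≠ 0 := by
      have := nm_two x.1
      exact_mod_cast (Real.rpow_pos_of_pos (by linarith) _).ne'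
    have h3 : ((x.2 : ℕ) : ℂ) ≠ 0 := by exact_mod_cast x.2.ne_zero
    unfold pow
    push_cast at h2 ⊢
    field_simp

end proof

/-- **Theorem.** Let `b_{v,i}`, `c_{v,j}` be the eigenvalues of the Satake parameters for `v ∉ S`, of absolute value `1`,
`L(s) = L^S(s, τ × σ)`, `L₁(s)` and `L₂(s)` the adjoint L-functions outside `S`, with `L₁(1), L₂(1) ≠ 0`, and `γ > π/2`.

* The series `D(T)` converges absolutely for `T > 0`.
* `exp(D(T)) → L(1/2) / (L₁(1) L₂(1))`.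
* This quotient is not zero iff `D(T)` converges; iff `Re D(T)` is bounded below along one sequence `T_k → ∞`.
* For all complex numbers `P`, `G`: `P = G · L(1/2) / (L₁(1) L₂(1))` iff `G exp(D(T_k)) → P` for one sequence
  `T_k → ∞`. -/
theorem result (S : Set (HeightOneSpectrum (𝓞 F))) (b : HeightOneSpectrum (𝓞 F) → Fin M → ℂ)
    (c : HeightOneSpectrum (𝓞 F) → Fin N → ℂ) (L L₁ L₂ : ℂ → ℂ) (h : Tensor.IsL S b c L)
    (han : AnalyticAt ℂ L ((1 / 2 : ℝ) : ℂ)) (h₁ : Ad.AtOne S (sym b) L₁) (h₂ : Ad.AtOne S (ext c) L₂)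
    (hL₁ : L₁ 1 ≠ 0) (hL₂ : L₂ 1 ≠ 0) (γ : ℝ) (hγ : Real.pi / 2 < γ) :
    (∀ T : ℝ, 0 < T → Summable fun x => ‖term S b c γ T x‖) ∧
    Tendsto (fun T : ℝ => Complex.exp (D S b c γ T)) atTop
      (𝓝 (L ((1 / 2 : ℝ) : ℂ) / (L₁ 1 * L₂ 1))) ∧
    (L ((1 / 2 : ℝ) : ℂ) / (L₁ 1 * L₂ 1) ≠ 0 ↔
      ∃ ρ : ℂ, Tendsto (fun T : ℝ => D S b c γ T) atTop (𝓝 ρ)) ∧
    (L ((1 / 2 : ℝ) : ℂ) / (L₁ 1 * L₂ 1) ≠ 0 ↔ ∃ (B : ℝ) (T : ℕ → ℝ), Tendsto T atTop atTop ∧
      ∀ k, B ≤ (D S b c γ (T k)).re) ∧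
    ∀ P G : ℂ, P = G * (L ((1 / 2 : ℝ) : ℂ) / (L₁ 1 * L₂ 1)) ↔ ∃ T : ℕ → ℝ, Tendsto T atTop atTop ∧
      Tendsto (fun k => G * Complex.exp (D S b c γ (T k))) atTop (𝓝 P) := by
  have i₁ := h₁.isL fun v hv p => by
    unfold sym
    rw [norm_mul, h.temperedB v hv, h.temperedB v hv, one_mul]
  have i₂ := h₂.isL fun v hv p => by
    unfold ext
    rw [norm_mul, h.temperedC v hv, h.temperedC v hv, one_mul]
  have s₀ : ∀ T : ℝ, 0 < T → Summable fun x => ‖Tensor.term S b c γ T x‖ := fun T hT =>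
    (h.isL.summable γ hT).congr fun x => by rw [Tensor.term_eq]
  have hs : ∀ T : ℝ, 0 < T → Summable fun x => ‖term S b c γ T x‖ := by
    intro T hT
    refine Summable.of_nonneg_of_le (fun x => norm_nonneg _) (fun x => ?_)
      (((s₀ T hT).add (i₁.summable γ hT)).add (i₂.summable γ hT))
    rw [term_eq]
    exact (norm_sub_le _ _).trans (by gcongr; exact norm_sub_le _ _)
  have hD : ∀ T : ℝ, 0 < T → D S b c γ T = Tensor.sum S b c γ T -
      Centre.sum (Ad.par S (sym b)) 1 γ T - Centre.sum (Ad.par S (ext c)) 1 γ T := by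
    intro T hT
    unfold D Tensor.sum Centre.sum
    rw [← (s₀ T hT).of_norm.tsum_sub (i₁.summable γ hT).of_norm,
      ← ((s₀ T hT).of_norm.sub (i₁.summable γ hT).of_norm).tsum_sub (i₂.summable γ hT).of_norm]
    exact tsum_congr fun x => term_eq γ T x
  have a₁ : AnalyticAt ℂ L₁ ((1 : ℝ) : ℂ) := by
    rw [Complex.ofReal_one]
    exact h₁.analytic
  have a₂ : AnalyticAt ℂ L₂ ((1 : ℝ) : ℂ) := by
    rw [Complex.ofReal_one]
    exact h₂.analytic
  have v₁ := i₁.value a₁.continuousAt hγ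
  have v₂ := i₂.value a₂.continuousAt hγ
  have v₀ := h.isL.value han.continuousAt hγ
  rw [Complex.ofReal_one] at v₁ v₂
  have hlim : Tendsto (fun T : ℝ => Complex.exp (D S b c γ T)) atTop
      (𝓝 (L ((1 / 2 : ℝ) : ℂ) / (L₁ 1 * L₂ 1))) := by
    refine (v₀.div (v₁.mul v₂) (mul_ne_zero hL₁ hL₂)).congr' ?_
    filter_upwards [eventually_gt_atTop 0] with T hT
    rw [Pi.div_apply, hD T hT, Tensor.sum_eq, Complex.exp_sub, Complex.exp_sub, div_div]
  obtain ⟨-, n2, n3, n4⟩ := h.isL.nonvanishing han hγ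
  simp_rw [← Tensor.sum_eq] at n2 n3 n4
  obtain ⟨-, p2, -, -⟩ := i₁.nonvanishing a₁ hγ
  obtain ⟨-, q2, -, -⟩ := i₂.nonvanishing a₂ hγ
  obtain ⟨ρ₁, hρ₁⟩ := p2.1 (by rwa [Complex.ofReal_one])
  obtain ⟨ρ₂, hρ₂⟩ := q2.1 (by rwa [Complex.ofReal_one])
  have hq : L ((1 / 2 : ℝ) : ℂ) / (L₁ 1 * L₂ 1) ≠ 0 ↔ L ((1 / 2 : ℝ) : ℂ) ≠ 0 := by
    rw [ne_eq, div_eq_zero_iff, not_or]
    exact ⟨fun h => h.1, fun h => ⟨h, mul_ne_zero hL₁ hL₂⟩⟩
  have hconv : L ((1 / 2 : ℝ) : ℂ) ≠ 0 → ∃ ρ : ℂ, Tendsto (fun T : ℝ => D S b c γ T) atTop (𝓝 ρ) := by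
    intro h5
    obtain ⟨ρ, hρ⟩ := n2.1 h5
    refine ⟨ρ - ρ₁ - ρ₂, ((hρ.sub hρ₁).sub hρ₂).congr' ?_⟩
    filter_upwards [eventually_gt_atTop 0] with T hT
    rw [hD T hT]
  have hbot : L ((1 / 2 : ℝ) : ℂ) = 0 → Tendsto (fun T : ℝ => (D S b c γ T).re) atTop atBot := by
    intro h5
    have h6 := n4.1 h5
    have h7 := ((Complex.continuous_re.tendsto _).comp (hρ₁.add hρ₂)).neg
    refine (h6.atBot_add h7).congr' ?_
    filter_upwards [eventually_gt_atTop 0] with T hT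
    rw [hD T hT]
    simp only [Function.comp_apply, Complex.add_re, Complex.sub_re]
    ring
  refine ⟨hs, hlim, ?_, ?_, fun P G => ⟨?_, ?_⟩⟩
  · rw [hq]
    refine ⟨hconv, ?_⟩
    rintro ⟨ρ, hρ⟩ h5
    exact not_tendsto_nhds_of_tendsto_atBot (hbot h5) _ ((Complex.continuous_re.tendsto _).comp hρ)
  · rw [hq]
    constructor
    · intro h5
      obtain ⟨ρ, hρ⟩ := hconv h5
      have h7 := (Complex.continuous_re.tendsto _).comp hρ
      have h8 : ∀ᶠ T : ℝ in atTop, ρ.re - 1 ≤ (D S b c γ T).re := by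
        have := h7.eventually (lt_mem_nhds (show ρ.re - 1 < ρ.re by linarith))
        filter_upwards [this] with T hT using hT.le
      obtain ⟨T₁, hT₁⟩ := eventually_atTop.1 h8
      exact ⟨ρ.re - 1, fun k => T₁ + k, tendsto_const_nhds.add_atTop tendsto_natCast_atTop_atTop,
        fun k => hT₁ _ (by linarith [(Nat.cast_nonneg k : (0 : ℝ) ≤ k)])⟩
    · rintro ⟨B, T, hT, hB⟩ h5
      obtain ⟨k, hk⟩ := (((hbot h5).comp hT).eventually (eventually_lt_atBot B)).exists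
      exact absurd (hB k) (not_le.2 hk)
  · intro h5
    refine ⟨fun k => k, tendsto_natCast_atTop_atTop, ?_⟩
    rw [h5]
    exact (hlim.comp tendsto_natCast_atTop_atTop).const_mul G
  · rintro ⟨T, hT, h5⟩
    exact tendsto_nhds_unique h5 ((hlim.comp hT).const_mul G)

end Pool.Agent.Results.MP_f4c338_nt.QuotientByTraces
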